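import Pool.Agent.HAR.Stmts

/-!
Squad HAR, row ANT: anti-concentration modulo `1` at a small scale.
-/

namespace Pool.Agent.HAR.H94

open Finset Filter Topology

noncomputable section

theorem nd_le (z : ℝ) (m : ℤ) : nd z ≤ |z - m| := by
  unfold nd
  exact round_le z m

/-- choice of the multiple -/
theorem exists_mult {M η θ : ℝ} (hM : 16 ≤ M) (hη : 0 < η) (hη8 : η ≤ 1 / 8)
    (h : 16 * η ≤ nd θ * Real.sqrt M) :
    ∃ l : ℕ, 1 ≤ l ∧ l * η ≤ 1 / 8 ∧ 1 ≤ nd (l * θ) * Real.sqrt M := by
  have hs : 4 ≤ Real.sqrt M := by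
    apply Real.le_sqrt_of_sq_le
    norm_num
    exact hM
  have hs0 : 0 < Real.sqrt M := by linarith
  have hr : 0 < nd θ := by
    by_contra hcon
    push Not at hcon
    have : nd θ * Real.sqrt M ≤ 0 := mul_nonpos_of_nonpos_of_nonneg hcon hs0.le
    linarith
  by_cases h1 : 1 ≤ nd θ * Real.sqrt M
  · exact ⟨1, le_rfl, by simpa using hη8, by simpa using h1⟩
  push Not at h1
  set w : ℝ := nd θ * Real.sqrt M with hw
  have hw0 : 0 < w := mul_pos hr hs0
  have h1w : 1 < 1 / w := by
    rw [lt_div_iff₀ hw0]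
    linarith
  set l : ℕ := ⌈1 / w⌉₊ with hl
  have hl1 : 1 / w ≤ l := Nat.le_ceil _
  have hl2 : (l : ℝ) < 1 / w + 1 := Nat.ceil_lt_add_one (by positivity)
  have hl3 : (l : ℝ) ≤ 2 / w := by
    have : 2 / w = 1 / w + 1 / w := by ring
    linarith
  have hlpos : 1 ≤ l := by
    have : (1 : ℝ) ≤ l := by linarith
    exact_mod_cast this
  refine ⟨l, hlpos, ?_, ?_⟩
  · calc (l : ℝ) * η ≤ 2 / w * η := mul_le_mul_of_nonneg_right hl3 hη.le
      _ ≤ 1 / 8 := by
        rw [div_mul_eq_mul_div, div_le_iff₀ hw0]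
        linarith
  · -- distance of `l θ` to the integers
    have hlr : (l : ℝ) * nd θ ≤ 1 / 2 := by
      have h2 : (l : ℝ) * w ≤ 2 := by
        have := mul_le_mul_of_nonneg_right hl3 hw0.le
        rwa [div_mul_cancel₀ _ hw0.ne'] at this
      have h3 : (l : ℝ) * nd θ * 4 ≤ 2 := by
        calc (l : ℝ) * nd θ * 4 ≤ (l : ℝ) * nd θ * Real.sqrt M :=
              mul_le_mul_of_nonneg_left hs (by positivity)
          _ = l * w := by rw [hw]; ring
          _ ≤ 2 := h2
      linarith
    have hkey : (l : ℝ) * nd θ ≤ nd (l * θ) := by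
      set m : ℤ := round ((l : ℝ) * θ) with hm
      have h4 : nd ((l : ℝ) * θ) = |(l : ℝ) * θ - m| := rfl
      have h5 : |(l : ℝ) * (θ - round θ)| = l * nd θ := by
        rw [abs_mul, abs_of_nonneg (by positivity)]
        rfl
      rw [h4]
      by_cases hmk : m = (l : ℤ) * round θ
      · rw [hmk, ← h5]
        apply le_of_eq
        congr 1
        push_cast
        ring
      · have h6 : (1 : ℝ) ≤ |((m - (l : ℤ) * round θ : ℤ) : ℝ)| := by
          rw [← Int.cast_abs]
          have : 1 ≤ |m - (l : ℤ) * round θ| := Int.one_le_abs (sub_ne_zero.mpr hmk)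
          exact_mod_cast this
        have h7 : (l : ℝ) * θ - m =
            (l : ℝ) * (θ - round θ) - ((m - (l : ℤ) * round θ : ℤ) : ℝ) := by
          push_cast
          ring
        have h8 := abs_sub_abs_le_abs_sub (((m - (l : ℤ) * round θ : ℤ) : ℝ))
          ((l : ℝ) * (θ - round θ))
        rw [abs_sub_comm] at h8
        rw [h7]
        linarith
    calc (1 : ℝ) = 1 / w * w := by field_simp
      _ ≤ l * w := mul_le_mul_of_nonneg_right hl1 hw0.le
      _ = l * nd θ * Real.sqrt M := by rw [hw]; ring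
      _ ≤ nd (l * θ) * Real.sqrt M := mul_le_mul_of_nonneg_right hkey hs0.le

/-- the cosine near the integers -/
theorem cos_ge {l : ℕ} {η y : ℝ} (hlη : l * η ≤ 1 / 8) (hy : nd y < η) :
    7 / 10 ≤ Real.cos (2 * Real.pi * (l * y)) := by
  have h1 : Real.cos (2 * Real.pi * (l * y)) = Real.cos (2 * Real.pi * (l * (y - round y))) := by
    have h2 : 2 * Real.pi * (l * y) = 2 * Real.pi * (l * (y - round y)) +
        (((l : ℤ) * round y : ℤ) : ℝ) * (2 * Real.pi) := by
      push_cast
      ring
    rw [h2, Real.cos_add_int_mul_two_pi]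
  have hpi := Real.pi_pos
  have h3 : |2 * Real.pi * (l * (y - round y))| ≤ Real.pi / 4 := by
    rw [abs_mul, abs_of_pos (by positivity : (0 : ℝ) < 2 * Real.pi), abs_mul,
      abs_of_nonneg (by positivity : (0 : ℝ) ≤ (l : ℝ))]
    have h4 : (l : ℝ) * |y - round y| ≤ 1 / 8 :=
      (mul_le_mul_of_nonneg_left hy.le (by positivity)).trans hlη
    nlinarith
  rw [h1, ← Real.cos_abs]
  have h5 : Real.cos (Real.pi / 4) ≤ Real.cos |2 * Real.pi * (l * (y - round y))| :=
    Real.cos_le_cos_of_nonneg_of_le_pi (abs_nonneg _) (by linarith) h3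
  rw [Real.cos_pi_div_four] at h5
  have h6 : (1.4 : ℝ) ≤ Real.sqrt 2 := by
    apply Real.le_sqrt_of_sq_le
    norm_num
  linarith

/-- the characteristic function -/
theorem sum_exp {T : Type} [Fintype T] [DecidableEq T] (b z : ℝ) :
    ∑ x : T → Bool, Complex.exp (((2 * Real.pi * (b + z *
      ((univ.filter fun t => x t = true).card : ℝ)) : ℝ) : ℂ) * Complex.I) =
    Complex.exp (((2 * Real.pi * b : ℝ) : ℂ) * Complex.I) *
      (1 + Complex.exp (((2 * Real.pi * z : ℝ) : ℂ) * Complex.I)) ^ Fintype.card T := by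
  set e : ℂ := Complex.exp (((2 * Real.pi * z : ℝ) : ℂ) * Complex.I) with he
  have h1 : ∀ x : T → Bool, Complex.exp (((2 * Real.pi * (b + z *
      ((univ.filter fun t => x t = true).card : ℝ)) : ℝ) : ℂ) * Complex.I) =
      Complex.exp (((2 * Real.pi * b : ℝ) : ℂ) * Complex.I) *
        ∏ t, (if x t = true then e else 1) := by
    intro x
    rw [Finset.prod_ite, Finset.prod_const_one, mul_one, Finset.prod_const, he,
      ← Complex.exp_nat_mul, ← Complex.exp_add]
    congr 1
    push_cast
    ring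
  rw [Finset.sum_congr rfl fun x _ => h1 x, ← Finset.mul_sum]
  congr 1
  have h2 := Finset.prod_univ_sum (R := ℂ) (fun _ : T => (univ : Finset Bool))
    (fun _ b => if b = true then e else 1)
  rw [Fintype.piFinset_univ] at h2
  rw [← h2]
  simp [add_comm]

theorem norm_one_add (z : ℝ) :
    ‖1 + Complex.exp (((2 * Real.pi * z : ℝ) : ℂ) * Complex.I)‖ =
      2 * |Real.cos (Real.pi * z)| := by
  have h1 : 1 + Complex.exp (((2 * Real.pi * z : ℝ) : ℂ) * Complex.I) =
      Complex.exp (((Real.pi * z : ℝ) : ℂ) * Complex.I) *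
        (2 * Complex.cos ((Real.pi * z : ℝ) : ℂ)) := by
    rw [Complex.two_cos, mul_add, ← Complex.exp_add, ← Complex.exp_add]
    have e1 : ((Real.pi * z : ℝ) : ℂ) * Complex.I + ((Real.pi * z : ℝ) : ℂ) * Complex.I =
        ((2 * Real.pi * z : ℝ) : ℂ) * Complex.I := by
      push_cast
      ring
    have e2 : ((Real.pi * z : ℝ) : ℂ) * Complex.I + -((Real.pi * z : ℝ) : ℂ) * Complex.I = 0 := by
      ring
    rw [e1, e2, Complex.exp_zero]
    ring
  rw [h1, norm_mul, Complex.norm_exp_ofReal_mul_I, one_mul, norm_mul, ← Complex.ofReal_cos,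
    Complex.norm_real, Real.norm_eq_abs]
  norm_num

/-- ANT -/
theorem ant (cos : CosStmt) : AntStmt := by
  intro T _ M η θ a hM hMT hη hη8 h16
  classical
  obtain ⟨l, hl1, hlη, hnd⟩ := exists_mult hM hη hη8 h16
  set N : ℕ := Fintype.card T with hN
  have hM0 : 0 ≤ M := by linarith
  set Y : (T → Bool) → ℝ := fun x => a + θ * ((univ.filter fun t => x t = true).card : ℝ) with hY
  set E : Finset (T → Bool) := univ.filter fun x => nd (Y x) < η with hE
  have hpr : pr (fun x : T → Bool =>
      nd (a + θ * ((univ.filter fun t => x t = true).card : ℝ)) < η) =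
      (E.card : ℝ) / 2 ^ N := by
    unfold pr
    rw [Nat.card_eq_fintype_card, Nat.card_eq_fintype_card, Fintype.card_subtype]
    simp [hE, hY, hN]
  -- lower bound
  have hlow : 17 / 10 * (E.card : ℝ) - 2 ^ N ≤
      ∑ x : T → Bool, Real.cos (2 * Real.pi * (l * Y x)) := by
    have h1 : ∀ x ∈ (univ : Finset (T → Bool)),
        (17 / 10 * (if nd (Y x) < η then (1 : ℝ) else 0) - 1) ≤
          Real.cos (2 * Real.pi * (l * Y x)) := by
      intro x _
      by_cases hx : nd (Y x) < η
      · rw [if_pos hx]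
        have := cos_ge hlη hx
        linarith
      · rw [if_neg hx]
        have := Real.neg_one_le_cos (2 * Real.pi * (l * Y x))
        linarith
    have h2 := Finset.sum_le_sum h1
    rw [Finset.sum_sub_distrib, ← Finset.mul_sum, Finset.sum_boole] at h2
    simp only [Finset.sum_const, Finset.card_univ, Fintype.card_pi, Fintype.card_bool,
      Finset.prod_const, nsmul_eq_mul, mul_one] at h2
    push_cast at h2
    exact h2
  -- upper bound
  have hup : ∑ x : T → Bool, Real.cos (2 * Real.pi * (l * Y x)) ≤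
      (2 * |Real.cos (Real.pi * (l * θ))|) ^ N := by
    have h1 := sum_exp (T := T) (l * a) (l * θ)
    have h2 : (∑ x : T → Bool, Complex.exp (((2 * Real.pi * (l * a + l * θ *
        ((univ.filter fun t => x t = true).card : ℝ)) : ℝ) : ℂ) * Complex.I)).re =
        ∑ x : T → Bool, Real.cos (2 * Real.pi * (l * Y x)) := by
      rw [Complex.re_sum]
      refine Finset.sum_congr rfl fun x _ => ?_
      rw [Complex.exp_ofReal_mul_I_re]
      congr 1
      simp only [hY]
      ring
    rw [← h2, h1]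
    refine (Complex.re_le_norm _).trans ?_
    rw [norm_mul, Complex.norm_exp_ofReal_mul_I, one_mul, norm_pow, norm_one_add]
  have hcos : |Real.cos (Real.pi * (l * θ))| ^ N ≤ Real.exp (-2) := by
    have h1 := cos ((l : ℝ) * θ)
    calc |Real.cos (Real.pi * (l * θ))| ^ N ≤ Real.exp (-(2 * nd (l * θ) ^ 2)) ^ N :=
          pow_le_pow_left₀ (abs_nonneg _) h1 N
      _ = Real.exp (-(2 * (nd (l * θ) ^ 2 * N))) := by
          rw [← Real.exp_nat_mul]
          congr 1
          ring
      _ ≤ Real.exp (-2) := by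
          apply Real.exp_le_exp.mpr
          have h2 : 1 ≤ nd (l * θ) ^ 2 * N := by
            have h3 : 1 ≤ (nd (l * θ) * Real.sqrt M) ^ 2 := by
              nlinarith
            rw [mul_pow, Real.sq_sqrt hM0] at h3
            exact h3.trans (mul_le_mul_of_nonneg_left hMT (sq_nonneg _))
          linarith
  have hexp : Real.exp (-2) ≤ 1 / 4 := by
    rw [Real.exp_neg, inv_eq_one_div]
    apply one_div_le_one_div_of_le (by norm_num)
    have h1 : (2 : ℝ) ≤ Real.exp 1 := by
      have := Real.add_one_le_exp (1 : ℝ)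
      linarith
    have h2 : Real.exp 2 = Real.exp 1 * Real.exp 1 := by
      rw [← Real.exp_add]
      norm_num
    rw [h2]
    nlinarith
  rw [hpr, div_le_iff₀ (by positivity)]
  have h3 : 17 / 10 * (E.card : ℝ) - 2 ^ N ≤ 2 ^ N * (1 / 4) := by
    refine hlow.trans (hup.trans ?_)
    rw [mul_pow]
    exact mul_le_mul_of_nonneg_left (hcos.trans hexp) (by positivity)
  nlinarith [pow_pos (by norm_num : (0 : ℝ) < 2) N]

end

end Pool.Agent.HAR.H94
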