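import Pool.Agent.HAR.Stmts

/-!
Squad HAR, row AVG: for most `x` almost all graphs have no mate.
-/

namespace Pool.Agent.HAR.H94

open Finset Filter Topology

noncomputable section

/-- the number of graphs -/
theorem card_graph_le (n : ℕ) :
    (Nat.card (SimpleGraph (Fin n)) : ℝ) ≤ (2 : ℝ) ^ ((n : ℝ) ^ 2 / 2) := by
  classical
  have h1 : Nat.card (SimpleGraph (Fin n)) ≤
      Nat.card ({e : Sym2 (Fin n) // ¬ e.IsDiag} → Bool) := by
    apply Nat.card_le_card_of_injective
      (fun G : SimpleGraph (Fin n) => fun e : {e : Sym2 (Fin n) // ¬ e.IsDiag} =>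
        decide (e.1 ∈ G.edgeSet))
    intro G H hGH
    apply SimpleGraph.edgeSet_inj.mp
    ext e
    by_cases he : e.IsDiag
    · constructor
      · intro h
        exact absurd he (G.not_isDiag_of_mem_edgeSet h)
      · intro h
        exact absurd he (H.not_isDiag_of_mem_edgeSet h)
    · have := congrFun hGH ⟨e, he⟩
      simpa using this
  have h2 : Nat.card ({e : Sym2 (Fin n) // ¬ e.IsDiag} → Bool) = 2 ^ n.choose 2 := by
    rw [Nat.card_eq_fintype_card, Fintype.card_fun, Fintype.card_bool, Sym2.card_subtype_not_diag,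
      Fintype.card_fin]
  have h3 : (n.choose 2 : ℝ) ≤ (n : ℝ) ^ 2 / 2 := by
    have := Nat.choose_le_pow_div (α := ℝ) 2 n
    simpa using this
  calc (Nat.card (SimpleGraph (Fin n)) : ℝ) ≤ ((2 ^ n.choose 2 : ℕ) : ℝ) := by
        exact_mod_cast h1.trans h2.le
    _ = (2 : ℝ) ^ ((n.choose 2 : ℕ) : ℝ) := by
        rw [Real.rpow_natCast]
        push_cast
        rfl
    _ ≤ (2 : ℝ) ^ ((n : ℝ) ^ 2 / 2) :=
        Real.rpow_le_rpow_of_exponent_le (by norm_num) h3

/-- splitting a count -/
theorem card_split {X : Type} [Finite X] (P Q : X → Prop) :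
    (Nat.card {x // Q x} : ℝ) ≤ Nat.card {a : {x // P x} // Q a.1} + Nat.card {x // ¬ P x} := by
  classical
  haveI := Fintype.ofFinite X
  have h1 : Nat.card {x // Q x} ≤ Nat.card ({a : {x // P x} // Q a.1} ⊕ {x // ¬ P x}) := by
    apply Nat.card_le_card_of_injective
      (fun x : {x // Q x} => if h : P x.1 then
        (Sum.inl ⟨⟨x.1, h⟩, x.2⟩ : {a : {x // P x} // Q a.1} ⊕ {x // ¬ P x})
        else Sum.inr ⟨x.1, h⟩)
    intro x y hxy
    by_cases hx : P x.1 <;> by_cases hy : P y.1
    · simp only [hx, hy, dif_pos, Sum.inl.injEq, Subtype.mk.injEq] at hxy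
      exact Subtype.ext hxy
    · simp [hx, hy] at hxy
    · simp [hx, hy] at hxy
    · simp only [hx, hy, dif_neg, not_false_eq_true, Sum.inr.injEq, Subtype.mk.injEq] at hxy
      exact Subtype.ext hxy
  rw [Nat.card_sum] at h1
  exact_mod_cast h1

/-- AVG -/
theorem avg (pai : PaiStmt) (typ : TypStmt) (mkv : MkvStmt) (prb : PrbStmt) : AvgStmt := by
  classical
  obtain ⟨c, hc, htyp⟩ := typ
  obtain ⟨pmono, -, pun, -, pbd, -⟩ := prb
  refine ⟨c / 2, by positivity, ?_⟩
  -- large n
  have hlog : 0 < Real.log 2 := Real.log_pos (by norm_num)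
  have hbig : ∀ᶠ n : ℕ in atTop, 200 * (c / Real.log 2 + 3) + Real.log 2 * (2 / c) + 1 ≤ (n : ℝ) :=
    tendsto_natCast_atTop_atTop.eventually_ge_atTop _
  filter_upwards [htyp, pai c hc, hbig] with n h1 h2 h3
  have hn1 : (1 : ℝ) ≤ n := by
    have e1 : 0 ≤ 200 * (c / Real.log 2 + 3) := by positivity
    have e2 : 0 ≤ Real.log 2 * (2 / c) := by positivity
    linarith
  have hnc : 200 * (c / Real.log 2 + 3) ≤ (n : ℝ) := by
    have e2 : 0 ≤ Real.log 2 * (2 / c) := by positivity
    linarith
  have hn2 : Real.log 2 * (2 / c) ≤ (n : ℝ) := by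
    have e1 : 0 ≤ 200 * (c / Real.log 2 + 3) := by positivity
    linarith
  set S : ℝ := (Nat.card (SimpleGraph (Fin n)) : ℝ) with hS
  have hS0 : 0 < S := by
    rw [hS]
    haveI : Nonempty (SimpleGraph (Fin n)) := ⟨⊥⟩
    exact_mod_cast Nat.card_pos
  set ε : ℝ := Real.exp (-(c * n)) with hε
  have hε0 : 0 < ε := Real.exp_pos _
  -- the probability of a mate
  set q : ℝ := (2 : ℝ) ^ (-(0.005 * (n : ℝ) ^ 2)) with hq
  have hmate : ∀ G : {G : SimpleGraph (Fin n) // Ty n ε G},
      pr (fun x : Cn n → Bool => Mate x G.1) ≤ q := by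
    intro G
    have e1 : pr (fun x : Cn n → Bool => Mate x G.1) ≤
        Nat.card (SimpleGraph (Fin n)) * (2 : ℝ) ^ (-(0.505 * (n : ℝ) ^ 2)) := by
      apply pun (Cn n → Bool) (SimpleGraph (Fin n))
        (fun H x => ¬ Nonempty (G.1 ≃g H) ∧ ∀ j, hh (cn G.1) x univ j = hh (cn H) x univ j)
      intro H
      by_cases hiso : Nonempty (G.1 ≃g H)
      · have e2 : pr (fun x : Cn n → Bool => ¬ Nonempty (G.1 ≃g H) ∧
            ∀ j, hh (cn G.1) x univ j = hh (cn H) x univ j) = 0 := by
          unfold pr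
          have : IsEmpty {x : Cn n → Bool // ¬ Nonempty (G.1 ≃g H) ∧
              ∀ j, hh (cn G.1) x univ j = hh (cn H) x univ j} := ⟨fun x => x.2.1 hiso⟩
          rw [Nat.card_of_isEmpty]
          simp
        rw [e2]
        positivity
      · refine (pmono _ _ _ ?_).trans (h2 G.1 H G.2 hiso)
        intro x hx
        exact hx.2
    refine e1.trans ?_
    calc (Nat.card (SimpleGraph (Fin n)) : ℝ) * (2 : ℝ) ^ (-(0.505 * (n : ℝ) ^ 2)) ≤
          (2 : ℝ) ^ ((n : ℝ) ^ 2 / 2) * (2 : ℝ) ^ (-(0.505 * (n : ℝ) ^ 2)) :=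
          mul_le_mul_of_nonneg_right (card_graph_le n) (by positivity)
      _ = q := by
          rw [← Real.rpow_add (by norm_num), hq]
          congr 1
          ring
  have hmk := mkv (Cn n → Bool) {G : SimpleGraph (Fin n) // Ty n ε G}
    (fun G x => Mate x G.1) q (ε * S) (by positivity) hmate
  -- comparison of the events
  have hty : (Nat.card {G : SimpleGraph (Fin n) // ¬ Ty n ε G} : ℝ) ≤ ε * S := by
    have e1 := h1
    unfold pr at e1
    rwa [div_le_iff₀ hS0] at e1
  have hexp2 : 2 * ε ≤ Real.exp (-(c / 2 * n)) := by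
    have e1 : Real.exp (-(c / 2 * n)) = Real.exp (c / 2 * n) * ε := by
      rw [hε, ← Real.exp_add]
      congr 1
      ring
    have e2 : 2 ≤ Real.exp (c / 2 * n) := by
      rw [← Real.exp_log (by norm_num : (0 : ℝ) < 2)]
      apply Real.exp_le_exp.mpr
      have e3 : Real.log 2 * (2 / c) * (c / 2) ≤ n * (c / 2) :=
        mul_le_mul_of_nonneg_right hn2 (by positivity)
      have e4 : Real.log 2 * (2 / c) * (c / 2) = Real.log 2 := by
        field_simp
      rw [Real.exp_log (by norm_num)]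
      linarith
    rw [e1]
    exact mul_le_mul_of_nonneg_right e2 hε0.le
  have hsub : pr (fun x : Cn n → Bool => Real.exp (-(c / 2 * n)) * S <
      (Nat.card {G : SimpleGraph (Fin n) // Mate x G} : ℝ)) ≤
      pr (fun x : Cn n → Bool => ε * S <
        (Nat.card {a : {G : SimpleGraph (Fin n) // Ty n ε G} // Mate x a.1} : ℝ)) := by
    apply pmono
    intro x hx
    have e1 := card_split (X := SimpleGraph (Fin n)) (Ty n ε) (Mate x)
    have e2 : 2 * ε * S ≤ Real.exp (-(c / 2 * n)) * S :=
      mul_le_mul_of_nonneg_right hexp2 hS0.le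
    linarith
  refine hsub.trans (hmk.trans ?_)
  have hX : (Nat.card {G : SimpleGraph (Fin n) // Ty n ε G} : ℝ) ≤ S := by
    rw [hS]
    exact_mod_cast Nat.card_le_card_of_injective _ Subtype.val_injective
  have hq0 : 0 ≤ q := by positivity
  calc (Nat.card {G : SimpleGraph (Fin n) // Ty n ε G} : ℝ) * q / (ε * S) ≤
        S * q / (ε * S) := by
        apply div_le_div_of_nonneg_right _ (by positivity)
        exact mul_le_mul_of_nonneg_right hX hq0
    _ = q / ε := by
        rw [mul_comm ε S, mul_div_mul_left _ _ hS0.ne']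
    _ ≤ (1 / 2) ^ (n + 2) := by
        rw [div_le_iff₀ hε0]
        have e1 : q = Real.exp (-(0.005 * (n : ℝ) ^ 2) * Real.log 2) := by
          rw [hq, Real.rpow_def_of_pos (by norm_num)]
          congr 1
          ring
        have e2 : ((1 : ℝ) / 2) ^ (n + 2) = Real.exp (-((n : ℝ) + 2) * Real.log 2) := by
          rw [one_div, inv_pow, ← Real.rpow_natCast, ← Real.rpow_neg (by norm_num),
            Real.rpow_def_of_pos (by norm_num)]
          congr 1
          push_cast
          ring
        rw [e1, e2, hε, ← Real.exp_add]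
        apply Real.exp_le_exp.mpr
        have e3 : (c / Real.log 2 + 3) * n ≤ 0.005 * (n : ℝ) ^ 2 := by
          nlinarith
        have e4 : (c / Real.log 2 + 3) * n * Real.log 2 ≤ 0.005 * (n : ℝ) ^ 2 * Real.log 2 :=
          mul_le_mul_of_nonneg_right e3 hlog.le
        have e5 : (c / Real.log 2 + 3) * n * Real.log 2 = c * n + 3 * n * Real.log 2 := by
          field_simp
        have e6 : ((n : ℝ) + 2) * Real.log 2 ≤ 3 * n * Real.log 2 :=
          mul_le_mul_of_nonneg_right (by linarith) hlog.le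
        linarith

end

end Pool.Agent.HAR.H94
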